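import Pool.Agent.Q7.LK.Stm2
import Pool.Agent.Q265.LK.Bas2
import Pool.Agent.Q162.LK.HS2
import Pool.Agent.Q96.LQ.LOC

/-!
# Project LK (helper7), job NDG: the Hilbert symbol is nondegenerate
-/

set_option autoImplicit false

namespace Pool.Agent.Q262.LK

open NumberField IsDedekindDomain Filter Topology Finset
open Pool.Agent.Q283.LQ (Sm Box Nest nS)
open Pool.Agent.Q7.LK
open Pool.Agent.Q265.LK
open Pool.Agent.Q96.LQ (finS)

section

variable {p : ℕ} [Fact p.Prime] {F : Type} [Field F] [NumberField F] {ζ : F}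
  {t : HeightOneSpectrum (𝓞 F) → F → F → ZMod p}

/-- the sum of the symbols over the primes above rational primes `≤ y` -/
noncomputable def TT (t : HeightOneSpectrum (𝓞 F) → F → F → ZMod p) (y : ℕ) (a b : F) : ZMod p :=
  ∑ w ∈ (finS (F := F) y).toFinset, t w a b

theorem TT_mul (ht : Hilb p ζ t) (y : ℕ) {a b c : F} (ha : a ≠ 0) (hb : b ≠ 0) (hc : c ≠ 0) :
    TT t y (a * b) c = TT t y a c + TT t y b c := by
  unfold TT
  rw [← Finset.sum_add_distrib]
  exact Finset.sum_congr rfl fun w _ => ht.mul w a b c ha hb hc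

theorem TT_anti (ht : Hilb p ζ t) (y : ℕ) {a c : F} (ha : a ≠ 0) (hc : c ≠ 0) :
    TT t y a c = - TT t y c a := by
  unfold TT
  rw [← Finset.sum_neg_distrib]
  exact Finset.sum_congr rfl fun w _ => ht.anti w a c ha hc

theorem TT_mul_r (ht : Hilb p ζ t) (y : ℕ) {a b c : F} (ha : a ≠ 0) (hb : b ≠ 0) (hc : c ≠ 0) :
    TT t y c (a * b) = TT t y c a + TT t y c b := by
  rw [TT_anti ht y hc (mul_ne_zero ha hb), TT_mul ht y ha hb hc, TT_anti ht y hc ha, TT_anti ht y hc hb]
  ring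

theorem TT_nn (ht : Hilb p ζ t) (y : ℕ) {a c : F} (ha : Nn p y a) (hc : c ≠ 0) : TT t y c a = 0 := by
  rw [TT_anti ht y hc ha.1, neg_eq_zero]
  unfold TT
  refine Finset.sum_eq_zero fun w hw => ?_
  exact ht.pow w a c (ha.2 w ((finS y).mem_toFinset.1 hw)) hc

theorem TT_one (hB : S_BAS) (ht : Hilb p ζ t) (y : ℕ) {c : F} (hc : c ≠ 0) : TT t y c 1 = 0 :=
  TT_nn ht y (Nn_one hB y) hc

theorem TT_pow (hB : S_BAS) (ht : Hilb p ζ t) (y : ℕ) {a c : F} (ha : a ≠ 0) (hc : c ≠ 0) (n : ℕ) :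
    TT t y c (a ^ n) = n * TT t y c a := by
  induction n with
  | zero => rw [pow_zero, TT_one hB ht y hc, Nat.cast_zero, zero_mul]
  | succ n ih =>
    rw [pow_succ, TT_mul_r ht y (pow_ne_zero _ ha) ha hc, ih]
    push_cast
    ring

theorem TT_mon (hB : S_BAS) (ht : Hilb p ζ t) (y : ℕ) {f : ℕ} {u : Fin f → F} (hu : ∀ l, u l ≠ 0)
    (x : Fin f → ZMod p) {c : F} (hc : c ≠ 0) : TT t y c (mon u x) = ∑ l, x l * TT t y c (u l) := by
  classical
  unfold mon
  have key : ∀ s : Finset (Fin f), TT t y c (∏ l ∈ s, u l ^ (x l).val) = ∑ l ∈ s, x l * TT t y c (u l) := by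
    intro s
    induction s using Finset.induction_on with
    | empty => simpa using TT_one hB ht y hc
    | insert i s hi ih =>
      rw [Finset.prod_insert hi, Finset.sum_insert hi, TT_mul_r ht y (pow_ne_zero _ (hu i))
        (Finset.prod_ne_zero_iff.2 fun l _ => pow_ne_zero _ (hu l)) hc, ih, TT_pow hB ht y (hu i) hc,
        natCast_val]
  exact key Finset.univ

/-- reciprocity with one exceptional prime -/
theorem TT_out (ht : Hilb p ζ t) (y : ℕ) {a c : F} (ha : a ≠ 0) (hc : c ≠ 0) (q : HeightOneSpectrum (𝓞 F))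
    (hq : ¬ Sm y q) (h : ∀ w, ¬ Sm y w → w ≠ q → t w a c = 0) : TT t y a c = - t q a c := by
  classical
  have h1 := (ht.sum a c ha hc).2
  have h2 : ∑ᶠ w, t w a c = ∑ w ∈ insert q (finS (F := F) y).toFinset, t w a c := by
    refine finsum_eq_sum_of_support_subset _ ?_
    intro w hw
    rw [Finset.mem_coe, Finset.mem_insert]
    by_contra hcon
    push Not at hcon
    exact hw (h w (fun hs => hcon.2 ((finS y).mem_toFinset.2 hs)) hcon.1)
  rw [h2, Finset.sum_insert (fun hs => hq ((finS y).mem_toFinset.1 hs))] at h1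
  unfold TT
  exact eq_neg_of_add_eq_zero_right h1

/-- reciprocity without exceptional prime -/
theorem TT_zero (ht : Hilb p ζ t) (y : ℕ) {a c : F} (ha : a ≠ 0) (hc : c ≠ 0)
    (h : ∀ w, ¬ Sm y w → t w a c = 0) : TT t y a c = 0 := by
  classical
  have h1 := (ht.sum a c ha hc).2
  have h2 : ∑ᶠ w, t w a c = ∑ w ∈ (finS (F := F) y).toFinset, t w a c := by
    refine finsum_eq_sum_of_support_subset _ ?_
    intro w hw
    rw [Finset.mem_coe]
    by_contra hcon
    exact hw (h w (fun hs => hcon ((finS y).mem_toFinset.2 hs)))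
  rw [h2] at h1
  exact h1

theorem mon_single {f : ℕ} (r : Fin f → F) (l : Fin f) : mon r (Pi.single l (1 : ZMod p)) = r l := by
  classical
  have hp : 1 < p := (Fact.out : p.Prime).one_lt
  haveI : Fact (1 < p) := ⟨hp⟩
  unfold mon
  rw [Finset.prod_eq_single l]
  · rw [Pi.single_eq_same, ZMod.val_one, pow_one]
  · intro i _ hi
    rw [Pi.single_eq_of_ne hi, ZMod.val_zero, pow_zero]
  · intro h
    exact absurd (Finset.mem_univ _) h

theorem mon_zero {f : ℕ} (r : Fin f → F) : mon r (0 : Fin f → ZMod p) = 1 := by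
  unfold mon
  refine Finset.prod_eq_one fun l _ => ?_
  rw [Pi.zero_apply, ZMod.val_zero, pow_zero]

theorem exists_below (v : HeightOneSpectrum (𝓞 F)) : ∃ l : ℕ, l.Prime ∧ (l : 𝓞 F) ∈ v.asIdeal := by
  have h0 : Ideal.absNorm v.asIdeal ≠ 0 := by
    rw [Ne, Ideal.absNorm_eq_zero_iff]
    exact v.ne_bot
  have h1 : ((Ideal.absNorm v.asIdeal : ℕ) : 𝓞 F) ∈ v.asIdeal := Ideal.absNorm_mem v.asIdeal
  have key : ∀ n : ℕ, n ≠ 0 → (n : 𝓞 F) ∈ v.asIdeal → ∃ l : ℕ, l.Prime ∧ (l : 𝓞 F) ∈ v.asIdeal := by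
    intro n
    induction n using Nat.recOnMul with
    | zero => intro h; exact absurd rfl h
    | one =>
      intro _ h
      rw [Nat.cast_one] at h
      exact absurd ((Ideal.eq_top_iff_one _).2 h) v.isPrime.ne_top
    | prime q hq => intro _ h; exact ⟨q, hq, h⟩
    | mul a b iha ihb =>
      intro hab h
      rw [Nat.cast_mul] at h
      have ha : a ≠ 0 := left_ne_zero_of_mul hab
      have hb : b ≠ 0 := right_ne_zero_of_mul hab
      rcases v.isPrime.mem_or_mem h with h | h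
      · exact iha ha h
      · exact ihb hb h
  exact key _ h0 h1

end

/-- `S_NDG` -/
theorem ndg : S_BAS → S_BAS1 → S_CHEB → S_NDG := by
  classical
  intro BAS BAS1 CHEB p hpF h2 F _ _ ζ hζ t ht v D hD hDt
  have hp : p.Prime := hpF.out
  obtain ⟨y0, hy0⟩ := BAS1 p h2 F ζ hζ
  obtain ⟨l0, hl0, hl0v⟩ := exists_below v
  obtain ⟨y, hy⟩ : ∃ y, y = max y0 l0 := ⟨_, rfl⟩
  have hSv : Sm y v := ⟨l0, hl0, by rw [hy]; exact le_max_right _ _, hl0v⟩
  obtain ⟨f, u, r, P, B, -⟩ := hy0 y (by rw [hy]; exact le_max_left _ _)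
  have hDp : ∀ w : HeightOneSpectrum (𝓞 F), ¬ Sm y w → ¬ Dp p w :=
    fun w hw h => hw ⟨p, hp, B.two, h⟩
  have hP0 : ∀ q : HeightOneSpectrum (𝓞 F), ¬ Sm y q → P q ≠ 0 := by
    intro q hq h
    have h1 := (B.pv q hq).1
    rw [h, map_zero] at h1
    exact WithZero.exp_ne_zero h1.symm
  have hPq : ∀ q : HeightOneSpectrum (𝓞 F), ¬ Sm y q → vl p q (P q) = 1 := by
    intro q hq
    unfold vl
    rw [(B.pv q hq).1, WithZero.log_exp]
    simp
  have hPw : ∀ q : HeightOneSpectrum (𝓞 F), ¬ Sm y q → ∀ w, ¬ Sm y w → w ≠ q → vl p w (P q) = 0 :=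
    fun q hq w hw hne => vl_of_val_one w ((B.pv q hq).2 w hw hne)
  have huw : ∀ (l : Fin f) (w : HeightOneSpectrum (𝓞 F)), ¬ Sm y w → vl p w (u l) = 0 :=
    fun l w hw => vl_of_val_one w (B.uv l w hw)
  -- the pairing on the units
  have huu : ∀ m l, TT t y (u m) (u l) = 0 := by
    intro m l
    refine TT_zero ht y (B.ue m) (B.ue l) fun w hw => ?_
    rw [ht.unr w (hDp w hw) (u l) (B.ue l) (huw l w hw) (u m) (B.ue m), huw m w hw, zero_mul]
  have huP : ∀ m (q : HeightOneSpectrum (𝓞 F)), ¬ Sm y q → TT t y (u m) (P q) = sy p ζ q (u m) := by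
    intro m q hq
    have h1 : ∀ w, ¬ Sm y w → t w (u m) (P q) = - (vl p w (P q) * sy p ζ w (u m)) := by
      intro w hw
      rw [ht.anti w (u m) (P q) (B.ue m) (hP0 q hq),
        ht.unr w (hDp w hw) (u m) (B.ue m) (huw m w hw) (P q) (hP0 q hq)]
    rw [TT_out ht y (B.ue m) (hP0 q hq) q hq, h1 q hq, hPq q hq, one_mul, neg_neg]
    intro w hw hne
    rw [h1 w hw, hPw q hq w hw hne, zero_mul, neg_zero]
  have hur : ∀ m l, TT t y (u m) (r l) = - (Pi.single l (1 : ZMod p) : Fin f → ZMod p) m := by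
    intro m l
    obtain ⟨q, hq, hqs⟩ := exists_q CHEB hζ u B.ue B.ind (Pi.single l 1) (finS (F := F) y)
    have hq' : ¬ Sm y q := hq
    obtain ⟨c', hc'⟩ := B.pcl q hq'
    have e1 : (fun l => sy p ζ q (u l)) = Pi.single l 1 := funext hqs
    rw [e1, mon_single] at hc'
    have h3 := TT_nn ht y hc' (B.ue m)
    rw [TT_mul_r ht y (mul_ne_zero (hP0 q hq') (B.re l)) (mon_ne u B.ue c') (B.ue m),
      TT_mul_r ht y (hP0 q hq') (B.re l) (B.ue m), huP m q hq', hqs,
      TT_mon BAS ht y B.ue c' (B.ue m)] at h3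
    simp only [huu, mul_zero, Finset.sum_const_zero, add_zero] at h3
    exact eq_neg_of_add_eq_zero_right h3
  -- approximation
  obtain ⟨e, he0, he1, he2⟩ := Pool.Agent.Q162.LK.apxL BAS p (finS (F := F) y).toFinset v hD
  have hTe : ∀ a : F, a ≠ 0 → TT t y a e = 0 := by
    intro a ha
    rw [TT_anti ht y ha he0, neg_eq_zero]
    refine Finset.sum_eq_zero fun w hw => ?_
    by_cases hwv : w = v
    · rw [hwv]
      have h4 := ht.mul v (e / D) D a (div_ne_zero he0 hD) hD ha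
      rw [div_mul_cancel₀ _ hD, ht.pow v _ a he1 ha, ht.anti v D a hD ha, hDt a ha, neg_zero, add_zero] at h4
      exact h4
    · exact ht.pow w e a (he2 w hw hwv) ha
  obtain ⟨⟨φ, c⟩, hN, -⟩ := B.cls e he0
  have hN' : Nn p y (e * mon r φ * mon u c) := hN
  have hmr := mon_ne r B.re φ
  have hmu := mon_ne u B.ue c
  have hsum : ∀ a : F, a ≠ 0 → TT t y a (mon r φ) + TT t y a (mon u c) = 0 := by
    intro a ha
    have h5 := TT_nn ht y hN' ha
    rw [TT_mul_r ht y (mul_ne_zero he0 hmr) hmu ha, TT_mul_r ht y he0 hmr ha, hTe a ha, zero_add] at h5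
    exact h5
  have hφ : φ = 0 := by
    funext m
    have h6 := hsum (u m) (B.ue m)
    rw [TT_mon BAS ht y B.ue c (B.ue m), TT_mon BAS ht y B.re φ (B.ue m)] at h6
    simp only [huu, hur, mul_zero, Finset.sum_const_zero, add_zero] at h6
    rw [Finset.sum_eq_single m] at h6
    · rw [Pi.single_eq_same, mul_neg, mul_one, neg_eq_zero] at h6
      exact h6
    · intro l _ hl
      rw [Pi.single_eq_of_ne (Ne.symm hl), neg_zero, mul_zero]
    · intro h
      exact absurd (Finset.mem_univ _) h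
  have hc : c = 0 := by
    funext m
    have h6 := hsum (r m) (B.re m)
    rw [hφ, mon_zero, TT_one BAS ht y (B.re m), zero_add, TT_mon BAS ht y B.ue c (B.re m)] at h6
    rw [Finset.sum_eq_single m] at h6
    · rw [TT_anti ht y (B.re m) (B.ue m), hur, Pi.single_eq_same, neg_neg, mul_one] at h6
      exact h6
    · intro l _ hl
      rw [TT_anti ht y (B.re m) (B.ue l), hur, Pi.single_eq_of_ne hl, neg_zero, neg_zero, mul_zero]
    · intro h
      exact absurd (Finset.mem_univ _) h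
  rw [hφ, hc, mon_zero, mon_zero, mul_one, mul_one] at hN'
  have h7 : Lpw p v e := hN'.2 v hSv
  have h8 := lpw_mul BAS h7 (lpw_inv BAS he1)
  have h9 : e * (e / D)⁻¹ = D := by
    rw [inv_div, mul_div_cancel₀ _ he0]
  rwa [h9] at h8

end Pool.Agent.Q262.LK
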