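import Pool.Agent.Q7.LK.Stm2

/-!
# Project LK (helper7), job NRM: local norms
-/

set_option autoImplicit false

namespace Pool.Agent.Q262.LK

open Polynomial

section A

variable {A : Type} [CommRing A] [Nontrivial A]

/-- matrix of the multiplication by a root of `X ^ p - D` -/
def Mc (p : ℕ) (D : A) : Matrix (Fin p) (Fin p) A :=
  fun i j => if (i : ℕ) = j + 1 then 1 else if (i : ℕ) = 0 ∧ (j : ℕ) + 1 = p then D else 0

/-- the basis of the powers of the root -/
noncomputable def bs (p : ℕ) (hp : p ≠ 0) (D : A) : Module.Basis (Fin p) A (AdjoinRoot (X ^ p - C D)) :=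
  (AdjoinRoot.powerBasis' (monic_X_pow_sub_C D hp)).basis.reindex
    (finCongr (by simp [AdjoinRoot.powerBasis'_dim, natDegree_X_pow_sub_C]))

theorem bs_apply (p : ℕ) (hp : p ≠ 0) (D : A) (i : Fin p) :
    bs p hp D i = AdjoinRoot.root (X ^ p - C D) ^ (i : ℕ) := by
  simp [bs]

theorem root_pow (p : ℕ) (D : A) :
    AdjoinRoot.root (X ^ p - C D) ^ p = algebraMap A (AdjoinRoot (X ^ p - C D)) D := by
  have h := AdjoinRoot.eval₂_root (X ^ p - C D : A[X])
  simp only [eval₂_sub, eval₂_X_pow, eval₂_C] at h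
  rw [sub_eq_zero] at h
  exact h

theorem lm_root (p : ℕ) (hp : p ≠ 0) (D : A) :
    Algebra.leftMulMatrix (bs p hp D) (AdjoinRoot.root (X ^ p - C D)) = Mc p D := by
  ext i j
  rw [Algebra.leftMulMatrix_eq_repr_mul, bs_apply, ← pow_succ']
  by_cases h : (j : ℕ) + 1 < p
  · have e : AdjoinRoot.root (X ^ p - C D) ^ ((j : ℕ) + 1) = bs p hp D ⟨(j : ℕ) + 1, h⟩ := by
      rw [bs_apply]
    rw [e, Module.Basis.repr_self, Finsupp.single_apply, Mc]
    have h2 : ¬ ((j : ℕ) + 1 = p) := by omega
    simp only [h2, and_false, if_false, Fin.ext_iff]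
    by_cases h3 : (i : ℕ) = j + 1
    · rw [if_pos h3.symm, if_pos h3]
    · rw [if_neg (fun h => h3 h.symm), if_neg h3]
  · have h2 : (j : ℕ) + 1 = p := by have := j.2; omega
    have e : AdjoinRoot.root (X ^ p - C D) ^ ((j : ℕ) + 1) = D • bs p hp D ⟨0, by omega⟩ := by
      rw [bs_apply, h2, root_pow, Algebra.smul_def]
      simp
    rw [e, map_smul, Module.Basis.repr_self, Finsupp.smul_apply, Finsupp.single_apply, Mc]
    have h3 : ¬ ((i : ℕ) = j + 1) := by have := i.2; omega
    simp only [h2, and_true, if_neg h3, Fin.ext_iff, smul_eq_mul]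
    have h4 : ¬ ((i : ℕ) = p) := by have := i.2; omega
    rw [if_neg h4]
    by_cases h5 : (i : ℕ) = 0
    · rw [if_pos h5, if_pos h5.symm, mul_one]
    · rw [if_neg h5, if_neg (fun h => h5 h.symm), mul_zero]

/-- the element with the coordinates `x` -/
noncomputable def el (p : ℕ) (D : A) (x : Fin p → A) : AdjoinRoot (X ^ p - C D) :=
  ∑ i, x i • AdjoinRoot.root (X ^ p - C D) ^ (i : ℕ)

/-- the norm in terms of the coordinates -/
def Nf (p : ℕ) (D : A) (x : Fin p → A) : A := (∑ i, x i • (Mc p D) ^ (i : ℕ)).det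

theorem norm_el (p : ℕ) (hp : p ≠ 0) (D : A) (x : Fin p → A) : Algebra.norm A (el p D x) = Nf p D x := by
  rw [Algebra.norm_eq_matrix_det (bs p hp D), Nf, el, map_sum]
  congr 1
  refine Finset.sum_congr rfl fun i _ => ?_
  rw [map_smul, map_pow, lm_root]

theorem exists_el (p : ℕ) (hp : p ≠ 0) (D : A) (s : AdjoinRoot (X ^ p - C D)) : ∃ x, s = el p D x := by
  refine ⟨fun i => (bs p hp D).repr s i, ?_⟩
  rw [el]
  conv_lhs => rw [← (bs p hp D).sum_repr s]
  refine Finset.sum_congr rfl fun i _ => ?_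
  rw [bs_apply]

theorem map_Nf {B : Type} [CommRing B] [Nontrivial B] (ι : A →+* B) (p : ℕ) (D : A) (x : Fin p → A) :
    ι (Nf p D x) = Nf p (ι D) (fun i => ι (x i)) := by
  rw [Nf, Nf, RingHom.map_det, map_sum]
  congr 1
  refine Finset.sum_congr rfl fun i _ => ?_
  have h1 : ι.mapMatrix (Mc p D) = Mc p (ι D) := by
    ext i j
    simp only [Mc, RingHom.mapMatrix_apply, Matrix.map_apply]
    split_ifs <;> simp
  have h2 : ι.mapMatrix (x i • Mc p D ^ (i : ℕ)) = ι (x i) • ι.mapMatrix (Mc p D ^ (i : ℕ)) := by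
    ext a b
    simp [Matrix.map_apply]
  rw [h2, map_pow, h1]

end A

theorem cont_Nf {K : Type} [Field K] [TopologicalSpace K] [IsTopologicalRing K] (p : ℕ) (D : K) :
    Continuous (Nf p D) := by
  unfold Nf
  refine Continuous.matrix_det ?_
  refine continuous_finset_sum _ fun i _ => ?_
  exact (continuous_apply i).smul continuous_const

open NumberField IsDedekindDomain Filter Topology Finset
open Pool.Agent.Q7.LK

/-- `S_NRM` -/
theorem nrm : S_BAS → S_NRM := by
  intro BAS p hpF h2 F _ _ ζ hζ t ht v D hD hnL a ha hs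
  obtain ⟨s, hs⟩ := hs
  have hp : p.Prime := hpF.out
  obtain ⟨b1, b2, b3, b4, b5, b6, b7⟩ := BAS p F v
  have hirr : Irreducible (X ^ p - C D : F[X]) := by
    refine X_pow_sub_C_irreducible_of_prime hp ?_
    intro b hb
    apply hnL
    rw [← hb]
    refine b3 b ?_
    rintro rfl
    rw [zero_pow hp.ne_zero] at hb
    exact hD hb.symm
  haveI : Fact (Irreducible (X ^ p - C D : F[X])) := ⟨hirr⟩
  haveI hfin : FiniteDimensional F (AdjoinRoot (X ^ p - C D : F[X])) :=
    Module.Finite.of_basis (bs p hp.ne_zero D)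
  haveI : CharZero (AdjoinRoot (X ^ p - C D : F[X])) := charZero_of_injective_algebraMap
    (algebraMap F (AdjoinRoot (X ^ p - C D : F[X]))).injective
  haveI : FiniteDimensional ℚ (AdjoinRoot (X ^ p - C D : F[X])) := FiniteDimensional.trans ℚ F _
  haveI : NumberField (AdjoinRoot (X ^ p - C D : F[X])) := { }
  have hK : Kum p F (AdjoinRoot (X ^ p - C D : F[X])) D :=
    { deg := by
        rw [Module.finrank_eq_card_basis (bs p hp.ne_zero D), Fintype.card_fin]
      root := ⟨AdjoinRoot.root _, root_pow p D⟩ }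
  obtain ⟨x, hx⟩ := exists_el p hp.ne_zero (D : v.adicCompletion F) s
  rw [hx, norm_el p hp.ne_zero] at hs
  have hp0 : (p : F) ≠ 0 := Nat.cast_ne_zero.2 hp.ne_zero
  have hva : v.valuation F a ≠ 0 := (v.valuation F).ne_zero_iff.2 ha
  have hU : {z : v.adicCompletion F | Valued.v (z - (a : v.adicCompletion F)) <
      Valued.v (((p : F) ^ 2 * a : F) : v.adicCompletion F)} ∈ 𝓝 (a : v.adicCompletion F) := by
    rw [Valued.mem_nhds]
    refine ⟨Units.mk0 (Valued.v.restrict (((p : F) ^ 2 * a : F) : v.adicCompletion F)) ?_, fun y hy => ?_⟩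
    · rw [Ne, Valuation.restrict_eq_zero_iff, HeightOneSpectrum.valuedAdicCompletion_eq_valuation',
        (v.valuation F).zero_iff]
      exact mul_ne_zero (pow_ne_zero _ hp0) ha
    · exact (Valuation.restrict_lt_iff _).1 hy
  have hV := (cont_Nf p (D : v.adicCompletion F)).continuousAt (x := x)
  rw [ContinuousAt, hs] at hV
  have hW := hV hU
  have hdense : DenseRange (Pi.map (fun _ : Fin p => algebraMap F (v.adicCompletion F))) :=
    DenseRange.piMap fun _ => HeightOneSpectrum.denseRange_algebraMap F v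
  obtain ⟨y, hy⟩ := hdense.mem_nhds hW
  have e1 : Nf p (D : v.adicCompletion F) (Pi.map (fun _ : Fin p => algebraMap F (v.adicCompletion F)) y) =
      ((Nf p D y : F) : v.adicCompletion F) :=
    (map_Nf (algebraMap F (v.adicCompletion F)) p D y).symm
  have hy2 : Valued.v (Nf p (D : v.adicCompletion F)
      (Pi.map (fun _ : Fin p => algebraMap F (v.adicCompletion F)) y) - (a : v.adicCompletion F)) <
      Valued.v (((p : F) ^ 2 * a : F) : v.adicCompletion F) := hy
  rw [e1] at hy2
  have e2 : ((Nf p D y : F) : v.adicCompletion F) - (a : v.adicCompletion F) =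
      ((Nf p D y - a : F) : v.adicCompletion F) :=
    (map_sub (algebraMap F (v.adicCompletion F)) _ _).symm
  rw [e2, HeightOneSpectrum.valuedAdicCompletion_eq_valuation',
    HeightOneSpectrum.valuedAdicCompletion_eq_valuation'] at hy2
  rw [← norm_el p hp.ne_zero D y] at hy2
  have h3 : v.valuation F (Algebra.norm F (el p D y) / a * 1 ^ p - 1) < v.valuation F ((p : F) ^ 2) := by
    have e3 : Algebra.norm F (el p D y) - a = (Algebra.norm F (el p D y) / a * 1 ^ p - 1) * a := by
      rw [one_pow, mul_one, sub_mul, one_mul, div_mul_cancel₀ _ ha]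
    rw [e3, map_mul, map_mul] at hy2
    exact lt_of_mul_lt_mul_right' hy2
  have h4 := b6 _ _ h3
  have h5 : Algebra.norm F (el p D y) ≠ 0 := by
    intro h
    apply (b1 _ h4).1
    rw [h, zero_div]
  have h6 : el p D y ≠ 0 := by
    intro h
    rw [h, Algebra.norm_zero] at h5
    exact h5 rfl
  have h7 := ht.nrm D hD _ hK _ h6 v
  have h8 := ht.pow v _ D h4 hD
  have h9 := ht.mul v (Algebra.norm F (el p D y) / a) a D (b1 _ h4).1 ha hD
  rw [div_mul_cancel₀ _ ha, h7, h8, zero_add] at h9
  exact h9.symm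

end Pool.Agent.Q262.LK
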